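import Pool.Agent.helper56.P2B.SpecP
import Pool.Agent.helper49.PL.OLA
import Pool.Agent.helper21.PL.OLB
import Pool.Agent.helper4.EZ.SpecH

/-!
# p2b:INB (helper12): inverse branches over discs without critical values
-/

set_option autoImplicit false

open Complex Metric Set Filter Topology MeasureTheory
open Pool.Agent.helper98.ILF
open WP (it)
open HY (UD T S hd UN RM)
open PM
open PL (TP LO PZ GJ INR PG DK ht tr DI CY SUBH hG hq BJ)
open P2 (SS FLS FL CLS FR TL)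

noncomputable section

namespace P2B

theorem INB_core (hTDF : PM.TDF_stmt) (hOQU : PL.OQU_stmt) (Ω : Set ℂ) (G C : ℂ → ℂ) (hP : PG Ω G) (himg : G '' Ω = UD)
    (hC : DifferentiableOn ℂ C Ω) (h1 : ∀ z ∈ Ω, ∀ z' ∈ Ω, G z = G z' → C z = C z')
    (hcrit : {w : ℂ | ∃ z ∈ Ω, G z = w ∧ deriv G z = 0}.Finite) :
    ∃ k : ℂ → ℂ, DifferentiableOn ℂ k UD ∧ ∀ z ∈ Ω, k (G z) = C z := by
  obtain ⟨k, hk1, hk2⟩ := hOQU Ω G C (hTDF Ω hP.dd).1 (hTDF Ω hP.dd).2.1 hP.dif hP.nc hC h1 hcrit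
  rw [himg] at hk1
  exact ⟨k, hk1, hk2⟩

theorem INB_fin (Ω : Set ℂ) (G C : ℂ → ℂ) (himg : G '' Ω = UD)
    (h2 : ∀ z ∈ Ω, ∀ z' : ℂ, C z = C z' → ∃ σ ∈ DK Ω G, σ z = z')
    (k : ℂ → ℂ) (hk : ∀ z ∈ Ω, k (G z) = C z) (v : ℂ) (ρ : ℝ) (hB : ball v ρ ⊆ UD)
    (E : ℂ → ℂ) (hE : DifferentiableOn ℂ E (ball v ρ)) (hCE : ∀ u ∈ ball v ρ, C (E u) = k u)
    (ζ : ℂ) (hζ : ζ ∈ Ω) (hGζ : G ζ ∈ ball v ρ) :
    ∃ E : ℂ → ℂ, DifferentiableOn ℂ E (ball v ρ) ∧ MapsTo E (ball v ρ) Ω ∧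
      (∀ u ∈ ball v ρ, G (E u) = u) ∧ E (G ζ) = ζ := by
  have hmain : ∀ u ∈ ball v ρ, E u ∈ Ω ∧ G (E u) = u := by
    intro u hu
    have hu1 : u ∈ G '' Ω := by rw [himg]; exact hB hu
    obtain ⟨z, hz, hzu⟩ := hu1
    obtain ⟨σ, hσ, hσz⟩ := h2 z hz (E u) (by rw [hCE u hu, ← hzu, hk z hz])
    refine ⟨?_, ?_⟩
    · rw [← hσz]; exact (hσ.2.1 z).2 hz
    · rw [← hσz, hσ.2.2 z hz, hzu]
  obtain ⟨σ, hσ, hσζ⟩ := h2 ζ hζ (E (G ζ)) (by rw [hCE _ hGζ, hk ζ hζ])
  have hτ : σ⁻¹ ∈ DK Ω G := (DK Ω G).inv_mem hσ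
  obtain ⟨⟨a, b, -, hab⟩, hτ1, hτ2⟩ := hτ
  refine ⟨fun u => σ⁻¹ (E u), ?_, ?_, ?_, ?_⟩
  · have : (fun u => σ⁻¹ (E u)) = fun u => (a : ℂ) * E u + b := by
      funext u; exact hab (E u)
    rw [this]
    exact (hE.const_mul _).add_const _
  · intro u hu
    exact (hτ1 (E u)).2 (hmain u hu).1
  · intro u hu
    show G (σ⁻¹ (E u)) = u
    rw [hτ2 _ (hmain u hu).1, (hmain u hu).2]
  · show σ⁻¹ (E (G ζ)) = ζ
    rw [← hσζ]
    simp

theorem INB (hTDF : PM.TDF_stmt) (hOQU : PL.OQU_stmt) (hFIB : PL.FIB_stmt) (hCRI : PL.CRI_stmt) (hLGL : EZ.LGL_stmt) : INB_stmt := by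
  intro Ω G hP hTY himg v ρ hB hnc ζ hζ hGζ
  have hUD : ∀ u ∈ ball v ρ, ∃ z ∈ Ω, G z = u := by
    intro u hu
    have : u ∈ G '' Ω := by rw [himg]; exact hB hu
    exact this
  have hop : IsOpen (ball v ρ) := isOpen_ball
  have hcv : Convex ℝ (ball v ρ) := convex_ball v ρ
  rcases hTY with hD | ⟨p, hp, hD⟩ | ⟨p, hp, b, hDI⟩
  · -- trivial deck group
    have hno : ∀ z ∈ Ω, deriv G z ≠ 0 := by
      intro z hz h0
      have h1 := (hCRI Ω G hP z hz).mp h0
      rw [hD, Subgroup.mem_bot] at h1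
      exact PL.OLA_ht1 z h1
    have hfib : ∀ z ∈ Ω, ∀ z' ∈ Ω, G z = G z' → (fun ζ : ℂ => ζ) z = (fun ζ : ℂ => ζ) z' := by
      intro z hz z' hz' h
      obtain ⟨σ, hσ, h1⟩ := hFIB Ω G hP z hz z' hz' h
      rw [hD, Subgroup.mem_bot] at hσ
      rw [hσ, Equiv.Perm.one_apply] at h1
      exact h1
    have hcrit : {w : ℂ | ∃ z ∈ Ω, G z = w ∧ deriv G z = 0}.Finite := by
      have h1 : {w : ℂ | ∃ z ∈ Ω, G z = w ∧ deriv G z = 0} = ∅ := by
        rw [Set.eq_empty_iff_forall_notMem]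
        rintro w ⟨z, hz, -, h0⟩
        exact hno z hz h0
      rw [h1]
      exact Set.finite_empty
    obtain ⟨k, hk1, hk2⟩ := INB_core hTDF hOQU Ω G (fun ζ => ζ) hP himg differentiableOn_id hfib hcrit
    refine INB_fin Ω G (fun ζ => ζ) himg ?_ k hk2 v ρ hB k (hk1.mono hB) (fun u _ => rfl) ζ hζ hGζ
    intro z _ z' h
    exact ⟨1, (DK Ω G).one_mem, by rw [Equiv.Perm.one_apply]; exact h⟩
  · -- one half turn
    have hmem : ht p ∈ DK Ω G := (hD (ht p)).mpr (Or.inr rfl)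
    set Cf : ℂ → ℂ := fun ζ => (ζ - p) ^ 2 with hCf
    have hsq : ∀ z z' : ℂ, Cf z = Cf z' → z' = z ∨ z' = ht p z := by
      intro z z' h
      have h1 : (z - z') * (z + z' - 2 * p) = 0 := by
        have h2 : (z - p) ^ 2 = (z' - p) ^ 2 := h
        linear_combination h2
      rcases mul_eq_zero.mp h1 with h2 | h2
      · left; linear_combination -h2
      · right; rw [PL.OLA_ht]; linear_combination h2
    have hfib : ∀ z ∈ Ω, ∀ z' ∈ Ω, G z = G z' → Cf z = Cf z' := by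
      intro z hz z' hz' h
      obtain ⟨σ, hσ, h1⟩ := hFIB Ω G hP z hz z' hz' h
      rcases (hD σ).mp hσ with h2 | h2
      · rw [h2, Equiv.Perm.one_apply] at h1
        rw [h1]
      · rw [h2, PL.OLA_ht] at h1
        show (z - p) ^ 2 = (z' - p) ^ 2
        rw [← h1]; ring
    have hcrit : {w : ℂ | ∃ z ∈ Ω, G z = w ∧ deriv G z = 0}.Finite := by
      refine (Set.finite_singleton (G p)).subset ?_
      rintro w ⟨z, hz, hw, h0⟩
      have h1 := (hCRI Ω G hP z hz).mp h0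
      rcases (hD (ht z)).mp h1 with h2 | h2
      · exact absurd h2 (PL.OLA_ht1 z)
      · have h3 := congrArg (fun σ : Equiv.Perm ℂ => σ 0) h2
        simp only [PL.OLA_ht] at h3
        have h4 : z = p := by linear_combination h3 / 2
        rw [mem_singleton_iff, ← hw, h4]
    have hdC : Differentiable ℂ Cf := by
      intro ζ
      simp only [hCf]
      fun_prop
    obtain ⟨k, hk1, hk2⟩ := INB_core hTDF hOQU Ω G Cf hP himg hdC.differentiableOn hfib hcrit
    have hk0 : ∀ u ∈ ball v ρ, k u ≠ 0 := by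
      intro u hu h0
      obtain ⟨z, hz, hzu⟩ := hUD u hu
      rw [← hzu, hk2 z hz] at h0
      have h1 : z = p := by
        have h2 : z - p = 0 := by
          have h3 : (z - p) ^ 2 = 0 := h0
          exact pow_eq_zero_iff (two_ne_zero) |>.mp h3
        linear_combination h2
      have h3 : deriv G p = 0 := (hCRI Ω G hP p hp).mpr hmem
      exact hnc z hz (by rw [h1]; exact h3) (by rw [hzu]; exact hu)
    obtain ⟨L, hL1, -, hL2⟩ := hLGL.1 (ball v ρ) k (G ζ) (Complex.log (k (G ζ))) hop hcv (hk1.mono hB) hk0 hGζ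
      (Complex.exp_log (hk0 _ hGζ))
    refine INB_fin Ω G Cf himg ?_ k hk2 v ρ hB (fun u => p + Complex.exp (L u / 2)) ?_ ?_ ζ hζ hGζ
    · intro z hz z' h
      rcases hsq z z' h with h1 | h1
      · exact ⟨1, (DK Ω G).one_mem, by rw [Equiv.Perm.one_apply]; exact h1.symm⟩
      · exact ⟨ht p, hmem, h1.symm⟩
    · exact ((hL1.div_const 2).cexp).const_add p
    · intro u hu
      show (p + Complex.exp (L u / 2) - p) ^ 2 = k u
      rw [add_sub_cancel_left, ← Complex.exp_nat_mul]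
      rw [← hL2 u hu]
      congr 1
      push_cast
      ring
  · -- dihedral
    have hb : b ≠ 0 := hDI.1
    have hpi : (Real.pi : ℂ) ≠ 0 := by exact_mod_cast Real.pi_ne_zero
    have hfib : ∀ z ∈ Ω, ∀ z' ∈ Ω, G z = G z' → PL.OLB_C p b z = PL.OLB_C p b z' := by
      intro z hz z' hz' h
      obtain ⟨σ, hσ, hσz⟩ := hFIB Ω G hP z hz z' hz' h
      rw [← hσz, PL.OLB_inv Ω G p b hDI σ hσ]
    have hcd : DifferentiableOn ℂ (PL.OLB_C p b) Ω := fun z _ =>
      (PL.OLB_deriv p b z).differentiableAt.differentiableWithinAt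
    obtain ⟨k, hk1, hk2⟩ := INB_core hTDF hOQU Ω G (PL.OLB_C p b) hP himg hcd hfib (PL.OLB_crit hCRI Ω G hP p b hDI)
    have hcr : ∀ z ∈ Ω, PL.OLB_C p b z ^ 2 = 1 → deriv G z = 0 := by
      intro z hz h
      rw [hCRI Ω G hP z hz]
      have h1 : Complex.sin (2 * Real.pi * (z - p) / b) = 0 := by
        have h2 := Complex.sin_sq_add_cos_sq (2 * Real.pi * (z - p) / b)
        have h3 : Complex.cos (2 * Real.pi * (z - p) / b) ^ 2 = 1 := h
        rw [h3] at h2
        have h4 : Complex.sin (2 * Real.pi * (z - p) / b) ^ 2 = 0 := by linear_combination h2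
        exact pow_eq_zero_iff (two_ne_zero) |>.mp h4
      rw [Complex.sin_eq_zero_iff] at h1
      obtain ⟨n, hn⟩ := h1
      have h5 : z = p + n * b / 2 := by
        field_simp at hn ⊢
        linear_combination hn
      rw [h5]
      exact (hDI.2 _).2 ⟨n, Or.inr rfl⟩
    have hk0 : ∀ u ∈ ball v ρ, k u ^ 2 - 1 ≠ 0 := by
      intro u hu h0
      obtain ⟨z, hz, hzu⟩ := hUD u hu
      rw [← hzu, hk2 z hz] at h0
      exact hnc z hz (hcr z hz (by linear_combination h0)) (by rw [hzu]; exact hu)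
    have hkd : DifferentiableOn ℂ k (ball v ρ) := hk1.mono hB
    obtain ⟨L, hL1, -, hL2⟩ := hLGL.1 (ball v ρ) (fun u => k u ^ 2 - 1) (G ζ) (Complex.log (k (G ζ) ^ 2 - 1)) hop hcv
      ((hkd.pow 2).sub_const 1) hk0 hGζ (Complex.exp_log (hk0 _ hGζ))
    set s : ℂ → ℂ := fun u => Complex.exp (L u / 2) with hs
    have hs2 : ∀ u ∈ ball v ρ, s u ^ 2 = k u ^ 2 - 1 := by
      intro u hu
      have h1 : s u ^ 2 = Complex.exp (L u) := by
        show Complex.exp (L u / 2) ^ 2 = Complex.exp (L u)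
        rw [← Complex.exp_nat_mul]
        congr 1
        push_cast
        ring
      rw [h1]
      exact hL2 u hu
    have hsd : DifferentiableOn ℂ s (ball v ρ) := (hL1.div_const 2).cexp
    have hprod : ∀ u ∈ ball v ρ, (k u + s u) * (k u - s u) = 1 := by
      intro u hu
      linear_combination -(hs2 u hu)
    have hks : ∀ u ∈ ball v ρ, k u + s u ≠ 0 := by
      intro u hu h0
      have := hprod u hu
      rw [h0, zero_mul] at this
      exact zero_ne_one this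
    obtain ⟨M, hM1, -, hM2⟩ := hLGL.1 (ball v ρ) (fun u => k u + s u) (G ζ) (Complex.log (k (G ζ) + s (G ζ))) hop hcv
      (hkd.add hsd) hks hGζ (Complex.exp_log (hks _ hGζ))
    have hI : (2 * (Real.pi : ℂ) * I) ≠ 0 := mul_ne_zero (mul_ne_zero two_ne_zero hpi) I_ne_zero
    refine INB_fin Ω G (PL.OLB_C p b) himg ?_ k hk2 v ρ hB (fun u => p + b * M u / (2 * Real.pi * I)) ?_ ?_ ζ hζ hGζ
    · intro z _ z' h
      exact PL.OLB_rel Ω G p b hDI z z' h
    · exact ((hM1.const_mul b).div_const _).const_add p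
    · intro u hu
      show Complex.cos (2 * Real.pi * (p + b * M u / (2 * Real.pi * I) - p) / b) = k u
      have h1 : 2 * (Real.pi : ℂ) * (p + b * M u / (2 * Real.pi * I) - p) / b = M u / I := by
        have hI0 : (I : ℂ) ≠ 0 := I_ne_zero
        field_simp
        ring
      have h2 : Complex.exp (M u / I * I) = k u + s u := by
        rw [div_mul_cancel₀ _ I_ne_zero]
        exact hM2 u hu
      have h3 : Complex.exp (-(M u / I) * I) = k u - s u := by
        rw [neg_mul, Complex.exp_neg, h2]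
        have h4 := hprod u hu
        have h5 := hks u hu
        field_simp
        linear_combination -h4
      rw [h1, Complex.cos, h2, h3]
      ring

end P2B

end
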